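import Pool.Agent.Helper7.KT.St

set_option autoImplicit false

/-!
Project KT, module CLQ: the number of cliques in graphs without `K_{a,t}`.
-/

namespace Pool.Agent.Helper34.KT

open Finset SimpleGraph Filter Topology
open EX Pool.Agent.Helper7.KT

open scoped Classical

private theorem lin_bound (C₁ E ε₃ : ℝ) (hC : 0 ≤ C₁) (hE : 1 < E) (hε : 0 < ε₃) :
    ∃ C₃ : ℝ, 0 ≤ C₃ ∧ ∀ n : ℕ, C₁ * n ≤ ε₃ * (n : ℝ) ^ E + C₃ := by
  have h1 : Tendsto (fun n : ℕ => (n : ℝ) ^ (E - 1)) atTop atTop :=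
    (tendsto_rpow_atTop (by linarith)).comp tendsto_natCast_atTop_atTop
  obtain ⟨N, hN⟩ := eventually_atTop.1 (h1.eventually_ge_atTop (C₁ / ε₃))
  refine ⟨C₁ * N, by positivity, fun n => ?_⟩
  by_cases hn : n ≤ N
  · have h2 : C₁ * n ≤ C₁ * N := mul_le_mul_of_nonneg_left (by exact_mod_cast hn) hC
    have h3 : 0 ≤ ε₃ * (n : ℝ) ^ E := mul_nonneg hε.le (Real.rpow_nonneg (Nat.cast_nonneg _) _)
    linarith
  · have hn' : N ≤ n := le_of_not_ge hn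
    have hn0 : (0 : ℝ) < n := by
      have : 0 < n := by omega
      exact_mod_cast this
    have h2 := hN n hn'
    have h3 : C₁ ≤ ε₃ * (n : ℝ) ^ (E - 1) := by
      rw [div_le_iff₀ hε] at h2
      linarith
    have h4 : (n : ℝ) ^ E = (n : ℝ) ^ (E - 1) * n := by
      rw [Real.rpow_sub_one hn0.ne', div_mul_cancel₀ _ hn0.ne']
    have h5 : C₁ * n ≤ ε₃ * (n : ℝ) ^ (E - 1) * n := mul_le_mul_of_nonneg_right h3 hn0.le
    have h6 : 0 ≤ C₁ * (N : ℝ) := by positivity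
    rw [h4]
    linarith

private theorem small_choice (c P ε : ℝ) (hc : 0 ≤ c) (hP : 0 ≤ P) (hε : 0 < ε) :
    ∃ δ : ℝ, 0 < δ ∧ (c + δ) * (P + δ) ≤ c * P + ε / 2 := by
  refine ⟨min 1 (ε / (2 * (c + P + 1))), lt_min one_pos (by positivity), ?_⟩
  have h1 : min 1 (ε / (2 * (c + P + 1))) ≤ 1 := min_le_left _ _
  have h2 : min 1 (ε / (2 * (c + P + 1))) ≤ ε / (2 * (c + P + 1)) := min_le_right _ _
  have h0 : 0 < min 1 (ε / (2 * (c + P + 1))) := lt_min one_pos (by positivity)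
  revert h1 h2 h0
  generalize min 1 (ε / (2 * (c + P + 1))) = δ
  intro h1 h2 h0
  have h3 : δ * (2 * (c + P + 1)) ≤ ε := by
    rwa [le_div_iff₀ (by positivity)] at h2
  have h4 : δ * δ ≤ δ * 1 := mul_le_mul_of_nonneg_left h1 h0.le
  linarith [show (c + δ) * (P + δ) = c * P + δ * c + δ * P + δ * δ by ring,
    show δ * (2 * (c + P + 1)) = 2 * (δ * c + δ * P + δ * 1) by ring]

private theorem expo (j a : ℕ) (hj : 1 ≤ j) (hja : j ≤ a) :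
    0 ≤ (j.choose 2 : ℝ) / a ∧ 1 ≤ (j : ℝ) - (j.choose 2 : ℝ) / a ∧
    (j : ℝ) - (j.choose 2 : ℝ) / a ≤ ((a + 1 : ℕ) : ℝ) ∧
    (j.choose 2 : ℝ) / a + ((j : ℝ) - (j.choose 2 : ℝ) / a) / ((a + 1 : ℕ) : ℝ) =
      ((j + 1).choose 2 : ℝ) / ((a + 1 : ℕ) : ℝ) ∧
    1 < 1 + ((j : ℝ) - (j.choose 2 : ℝ) / a) -
      ((j : ℝ) - (j.choose 2 : ℝ) / a) / ((a + 1 : ℕ) : ℝ) := by
  have ha : (0 : ℝ) < a := by
    have : 0 < a := by omega
    exact_mod_cast this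
  have hj1 : (1 : ℝ) ≤ j := by exact_mod_cast hj
  have hja1 : (j : ℝ) ≤ a := by exact_mod_cast hja
  have h2 : (j.choose 2 : ℝ) = j * (j - 1) / 2 := Nat.cast_choose_two ℝ j
  have h3 : ((j + 1).choose 2 : ℝ) = j.choose 2 + j := by
    rw [Nat.choose_succ_succ' j 1, Nat.choose_one_right]
    push_cast
    ring
  have h0 : 0 ≤ (j.choose 2 : ℝ) / a := by positivity
  have h4 : (j.choose 2 : ℝ) / a ≤ (j - 1) / 2 := by
    rw [div_le_iff₀ ha, h2]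
    have h5 : (j : ℝ) * (j - 1) ≤ a * (j - 1) := mul_le_mul_of_nonneg_right hja1 (by linarith)
    linarith
  have hb : (0 : ℝ) < ((a + 1 : ℕ) : ℝ) := by positivity
  have hb1 : (1 : ℝ) < ((a + 1 : ℕ) : ℝ) := by
    push_cast
    linarith
  refine ⟨h0, by linarith, ?_, ?_, ?_⟩
  · push_cast
    linarith
  · rw [h3]
    push_cast
    field_simp
    ring
  · have h6 : 0 < (j : ℝ) - (j.choose 2 : ℝ) / a := by linarith
    have h7 : ((j : ℝ) - (j.choose 2 : ℝ) / a) / ((a + 1 : ℕ) : ℝ) <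
        (j : ℝ) - (j.choose 2 : ℝ) / a := div_lt_self h6 hb1
    linarith

/-- The final computation. -/
private theorem calc_fin (K s1 s2 c P δ ε nE n C₁ C₂ C₃ F : ℝ) (j : ℕ)
    (hc : 0 ≤ c) (hδ : 0 < δ) (hε : 0 < ε) (hnE : 0 ≤ nE)
    (hC₂ : 0 ≤ C₂) (hC₃ : 0 ≤ C₃)
    (h1 : ((j : ℝ) + 1) * K ≤ s1) (h2 : s1 ≤ (c + δ) * s2 + C₁ * n)
    (h3 : s2 ≤ (P + δ) * nE + C₂) (h4 : C₁ * n ≤ ε / 2 * nE + C₃)
    (h5 : (c + δ) * (P + δ) ≤ c * P + ε / 2) (h6 : c * P = ((j : ℝ) + 1) * F) :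
    K ≤ (F + ε) * nE + ((c + δ) * C₂ + C₃) := by
  have hcd : 0 ≤ c + δ := by linarith
  have h7 : (c + δ) * s2 ≤ (c + δ) * ((P + δ) * nE + C₂) := mul_le_mul_of_nonneg_left h3 hcd
  have h8 : (c + δ) * (P + δ) * nE ≤ (c * P + ε / 2) * nE := mul_le_mul_of_nonneg_right h5 hnE
  have h9 : ((j : ℝ) + 1) * K ≤ (((j : ℝ) + 1) * F + ε) * nE + ((c + δ) * C₂ + C₃) := by
    rw [← h6]
    linarith [show (c + δ) * ((P + δ) * nE + C₂) = (c + δ) * (P + δ) * nE + (c + δ) * C₂ by ring,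
      show (c * P + ε / 2) * nE = c * P * nE + ε / 2 * nE by ring,
      show (c * P + ε) * nE = c * P * nE + ε / 2 * nE + ε / 2 * nE by ring]
  have hj : (0 : ℝ) < (j : ℝ) + 1 := by positivity
  have hj1 : (1 : ℝ) ≤ (j : ℝ) + 1 := by
    have : (0 : ℝ) ≤ j := Nat.cast_nonneg j
    linarith
  have hX : 0 ≤ ε * nE := mul_nonneg hε.le hnE
  have hY : 0 ≤ (c + δ) * C₂ + C₃ := add_nonneg (mul_nonneg hcd hC₂) hC₃
  have h10 : ε * nE ≤ ((j : ℝ) + 1) * (ε * nE) := le_mul_of_one_le_left hX hj1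
  have h11 : (c + δ) * C₂ + C₃ ≤ ((j : ℝ) + 1) * ((c + δ) * C₂ + C₃) :=
    le_mul_of_one_le_left hY hj1
  refine le_of_mul_le_mul_left ?_ hj
  calc ((j : ℝ) + 1) * K ≤ (((j : ℝ) + 1) * F + ε) * nE + ((c + δ) * C₂ + C₃) := h9
    _ = ((j : ℝ) + 1) * F * nE + ε * nE + ((c + δ) * C₂ + C₃) := by ring
    _ ≤ ((j : ℝ) + 1) * F * nE + ((j : ℝ) + 1) * (ε * nE) +
        ((j : ℝ) + 1) * ((c + δ) * C₂ + C₃) := by linarith
    _ = ((j : ℝ) + 1) * ((F + ε) * nE + ((c + δ) * C₂ + C₃)) := by ring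

theorem hCLQ (hDCN : StDCN) (hLNK : StLNK) (hKCS : StKCS) (hPSB : StPSB) : StCLQ := by
  intro t ht j hj
  induction j, hj using Nat.le_induction with
  | base =>
    intro a ha ε hε
    refine ⟨0, le_refl _, fun V Γ S _ => ?_⟩
    have h1 : ((1 : ℕ).choose 2 : ℝ) = 0 := by norm_num
    have h2 : (kc Γ 1 S : ℝ) ≤ (S.card : ℝ) := by exact_mod_cast kc_one_le Γ S
    rw [h1, zero_div, Real.rpow_zero, Nat.factorial_one, Nat.cast_one, div_one, sub_zero,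
      Real.rpow_one, add_zero]
    have h3 : 0 ≤ ε * (S.card : ℝ) := mul_nonneg hε.le (Nat.cast_nonneg _)
    linarith
  | succ j hj ih =>
    intro a' ha' ε hε
    obtain ⟨a, rfl⟩ : ∃ a, a' = a + 1 := ⟨a' - 1, by omega⟩
    have hja : j ≤ a := by omega
    obtain ⟨e0, e1, e2, e3, e4⟩ := expo j a hj hja
    obtain ⟨θ, hθ⟩ : ∃ θ : ℝ, θ = (j.choose 2 : ℝ) / a := ⟨_, rfl⟩
    rw [← hθ] at e0 e1 e2 e3 e4
    obtain ⟨T, hT⟩ : ∃ T : ℝ, T = ((t - 1 : ℕ) : ℝ) := ⟨_, rfl⟩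
    have hT0 : 0 ≤ T := by
      rw [hT]
      exact Nat.cast_nonneg _
    obtain ⟨c, hc⟩ : ∃ c : ℝ, c = T ^ θ / j.factorial := ⟨_, rfl⟩
    have hc0 : 0 ≤ c := by
      rw [hc]
      exact div_nonneg (Real.rpow_nonneg hT0 _) (Nat.cast_nonneg _)
    obtain ⟨P, hP⟩ : ∃ P : ℝ, P = T ^ (((j : ℝ) - θ) / ((a + 1 : ℕ) : ℝ)) := ⟨_, rfl⟩
    have hP0 : 0 ≤ P := by
      rw [hP]
      exact Real.rpow_nonneg hT0 _
    obtain ⟨δ, hδ, hδ1⟩ := small_choice c P ε hc0 hP0 hε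
    obtain ⟨C₁, hC₁, hih⟩ := ih a hja δ hδ
    obtain ⟨C₂, hC₂, hps⟩ := hPSB (a + 1) ((j : ℝ) - θ) T (by omega) e1 e2 hT0 δ hδ
    obtain ⟨C₃, hC₃, hlin⟩ := lin_bound C₁ _ (ε / 2) hC₁ e4 (by linarith)
    refine ⟨(c + δ) * C₂ + C₃, add_nonneg (mul_nonneg (by linarith) hC₂) hC₃,
      fun V Γ S hKF => ?_⟩
    have k1 : ((j : ℝ) + 1) * (kc Γ (j + 1) S : ℝ) ≤ ∑ v ∈ S, (kc Γ j (nb Γ S v) : ℝ) := by
      exact_mod_cast hKCS V Γ j S
    have k2 : ∑ v ∈ S, (kc Γ j (nb Γ S v) : ℝ) ≤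
        (c + δ) * ∑ v ∈ S, (dg Γ S v : ℝ) ^ ((j : ℝ) - θ) + C₁ * (S.card : ℝ) := by
      have k3 : ∀ v ∈ S, (kc Γ j (nb Γ S v) : ℝ) ≤
          (c + δ) * (dg Γ S v : ℝ) ^ ((j : ℝ) - θ) + C₁ := by
        intro v hv
        have := hih V Γ (nb Γ S v) (hLNK V Γ a t S v hv hKF)
        rw [← hθ, ← hT, ← hc] at this
        exact this
      refine (Finset.sum_le_sum k3).trans (le_of_eq ?_)
      rw [Finset.sum_add_distrib, ← Finset.mul_sum, Finset.sum_const, nsmul_eq_mul,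
        mul_comm C₁]
    have k4 : ∑ v ∈ S, (dg Γ S v : ℝ) ^ ((j : ℝ) - θ) ≤
        (P + δ) * (S.card : ℝ) ^ (1 + ((j : ℝ) - θ) - ((j : ℝ) - θ) / ((a + 1 : ℕ) : ℝ)) + C₂ := by
      have k5 := hDCN V Γ (a + 1) t S hKF
      have k6 : ((∑ v ∈ S, (dg Γ S v).choose (a + 1) : ℕ) : ℝ) ≤
          T * (S.card.choose (a + 1) : ℝ) := by
        rw [hT]
        exact_mod_cast k5
      have k7 := hps V S (fun v => dg Γ S v) S.card (le_refl _) k6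
      rw [← hP] at k7
      exact k7
    have k8 : c * P = ((j : ℝ) + 1) *
        (T ^ (((j + 1).choose 2 : ℝ) / ((a + 1 : ℕ) : ℝ)) / ((j + 1).factorial : ℝ)) := by
      rw [← e3, Real.rpow_add_of_nonneg hT0 e0 (div_nonneg (by linarith) (by positivity)), ← hP,
        hc, Nat.factorial_succ]
      have hf : (j.factorial : ℝ) ≠ 0 := by exact_mod_cast (Nat.factorial_pos j).ne'
      have hj2 : (j : ℝ) + 1 ≠ 0 := by positivity
      push_cast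
      field_simp
    have k9 : ((j + 1 : ℕ) : ℝ) - ((j + 1).choose 2 : ℝ) / ((a + 1 : ℕ) : ℝ) =
        1 + ((j : ℝ) - θ) - ((j : ℝ) - θ) / ((a + 1 : ℕ) : ℝ) := by
      rw [← e3]
      push_cast
      ring
    rw [k9, ← hT]
    exact calc_fin _ _ _ c P δ ε _ (S.card : ℝ) C₁ C₂ C₃ _ j hc0 hδ hε
      (Real.rpow_nonneg (Nat.cast_nonneg _) _) hC₂ hC₃ k1 k2 k4 (hlin S.card) hδ1 k8

end Pool.Agent.Helper34.KT
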